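import Pool.Agent.H60.LQ.Two

/-!
# Row NUM3 of the board `l0`: the numbers of the second level
-/

set_option autoImplicit false

namespace Pool.LQ.N1

/-- The value at `(1, 1, 0)`, times `a (1 - s)`. -/
noncomputable def F1 (a k q c m r : ℝ) : ℝ :=
  (1 - q * r) * ((3 * a ^ 2 + 2 * a - 2) * (a + m + c) + a * (a - 1) -
    (a - 1) * (a * k - k * r * (2 * (a + m + c) - a * m - 3 * a)) -
    a * (a ^ 2 + 3 * a - 2) * (m + 2)) -
  a * (a * k - q * r * ((4 * a - 1) * (a + m + c) - 2 * a ^ 2 * (m + 2)))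

/-- The value at `(1, 1, 1)`, times `1 - s`. -/
noncomputable def F2 (a k q Λ m r : ℝ) : ℝ :=
  (1 - q * r) * ((a - 1) - (a - 1) * (2 * k - k * r) +
    (7 * a ^ 2 + 3 * a - 4 + (3 * a - 1) * (Λ - a)) - (a ^ 2 + 3 * a - 2) * (m + 2)) -
  a * (k - 2 * k * r - q * r * (-2 * a * (m + 2) + 8 * a - 2 + 2 * (Λ - a)))

/-- The identity behind the bound. -/
theorem ident (a k q c Λ m r L l sb y K τ : ℝ) (hmr : m * r = 1) :
    a * ((1 - q * r) * ((3 * a ^ 2 + 2 * a - 2) * sb + (a - 1) * l + (3 * a - a ^ 2 - 1) * y -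
        (a - 1) * (k * l - k * r * (τ + 4 * K + (2 * sb - L - 3 * l + y))) +
        (7 * a ^ 2 + 3 * a - 4 + (3 * a - 1) * (Λ - a)) * K -
        (a ^ 2 + 3 * a - 2) * (L + 2 * l)) -
      a * (k * l - k * r * (τ + 2 * K) - q * r * ((4 * a - 1) * sb - 2 * a * (L + 2 * l) + y +
        (8 * a - 2 + 2 * (Λ - a)) * K))) =
    a * ((1 - q * r) * ((3 * a - a ^ 2 - 1) + (a - 1) * k * r) + a * (q * r)) *
        (y - (l - L * r)) +
      a * ((1 - q * r) * ((a - 1) * k * r) + a * (k * r)) * (τ - (m * l - L)) +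
      ((1 - q * r) * ((3 * a ^ 2 + 2 * a - 2) + 2 * (a - 1) * k * r) +
        a * (q * r) * (4 * a - 1)) *
        (a * (sb - l) + (a + m + c) * K - (1 + c * r) * L) +
      (L * r - K) * F1 a k q c m r + K * (a * F2 a k q Λ m r) := by
  have hr : r ≠ 0 := by
    rintro rfl
    simp at hmr
  have hm : m = r⁻¹ := eq_inv_of_mul_eq_one_left hmr
  subst hm
  unfold F1 F2
  field_simp
  ring

variable {a k q m r : ℝ}

/-- Bounds for the powers of `a`. -/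
theorem pw (h1 : 1.67513 ≤ a) (h2 : a ≤ 1.6752) :
    2.80606 ≤ a ^ 2 ∧ a ^ 2 ≤ 2.8063 ∧ 4.7005 ≤ a ^ 3 ∧ a ^ 3 ≤ 4.7012 := by
  have e1 : 2.80606 ≤ a ^ 2 := by nlinarith
  have e2 : a ^ 2 ≤ 2.8063 := by nlinarith
  refine ⟨e1, e2, ?_, ?_⟩
  · have : a ^ 3 = a * a ^ 2 := by ring
    rw [this]
    nlinarith
  · have : a ^ 3 = a * a ^ 2 := by ring
    rw [this]
    nlinarith

theorem kb (h1 : 1.67513 ≤ a) (h2 : a ≤ 1.6752) (hk : k * (a ^ 2 + 3 * a - 2) = 3 * a - a ^ 2 - 1) :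
    0.20907 ≤ k ∧ k ≤ 0.2091 := by
  obtain ⟨e1, e2, -, -⟩ := pw h1 h2
  constructor
  · by_contra h
    rw [not_le] at h
    nlinarith
  · by_contra h
    rw [not_le] at h
    nlinarith

theorem qb (h1 : 1.67513 ≤ a) (h2 : a ≤ 1.6752) (hk1 : 0.20907 ≤ k) (hk2 : k ≤ 0.2091)
    (hq : q * (a - 1) = 2 * k) : 0.6192 ≤ q ∧ q ≤ 0.6195 := by
  constructor
  · by_contra h
    rw [not_le] at h
    nlinarith
  · by_contra h
    rw [not_le] at h
    nlinarith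

/-- The first number. -/
theorem F1_le (h1 : 1.67513 ≤ a) (h2 : a ≤ 1.6752) (h3 : 0 ≤ a ^ 3 - 4 * a + 2)
    (hk1 : 0.20907 ≤ k) (hk2 : k ≤ 0.2091) (hq1 : 0.6192 ≤ q) (hq2 : q ≤ 0.6195)
    (hmr : m * r = 1) (hr : 0 < r) (hr7 : r ≤ 1 / 7) (hm : 0 < m) :
    F1 a k q (0.279 + 0.05 * r) m r ≤ 0 := by
  obtain ⟨e1, e2, e3, e4⟩ := pw h1 h2
  obtain ⟨A0, hA0⟩ : ∃ x, x = 0.279 * (3 * a ^ 2 + 2 * a - 2) - a * (3 * a - a ^ 2 - 1) -
      k * (2 * (a - 1) ^ 2 + a ^ 2) + q * (a * (4 * a - 1 - 2 * a ^ 2)) := ⟨_, rfl⟩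
  obtain ⟨u, hu⟩ : ∃ x, x = 0.279 * (3 * a ^ 2 + 2 * a - 2) - a * (3 * a - a ^ 2 - 1) -
      k * (2 * (a - 1) ^ 2) := ⟨_, rfl⟩
  obtain ⟨e, he⟩ : ∃ x, x = (a - 1) * k := ⟨_, rfl⟩
  obtain ⟨v, hv⟩ : ∃ x, x = 0.05 * (3 * a ^ 2 + 2 * a - 2) - e * (a - 0.558) := ⟨_, rfl⟩
  obtain ⟨A1, hA1⟩ : ∃ x, x = -(q * u) + v + (a * q) * (0.116 * a - 0.279) := ⟨_, rfl⟩
  obtain ⟨A2, hA2⟩ : ∃ x, x = -(q * v) + 0.1 * e + 0.05 * ((a * q) * (4 * a - 1)) := ⟨_, rfl⟩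
  have key : F1 a k q (0.279 + 0.05 * r) m r =
      -((1 - q * r) * m * (a ^ 3 - 4 * a + 2)) + A0 + A1 * r + A2 * r ^ 2 -
        0.1 * (q * e) * r ^ 3 := by
    have hr0 : r ≠ 0 := hr.ne'
    have hm' : m = r⁻¹ := eq_inv_of_mul_eq_one_left hmr
    rw [hA0, hA1, hA2, hv, hu, he, hm']
    unfold F1
    field_simp
    ring
  have e5 : 0.141 ≤ e := by rw [he]; nlinarith
  have e6 : e ≤ 0.1413 := by rw [he]; nlinarith
  have b0 : A0 ≤ -0.002 := by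
    have t1 : 0.20907 * (2 * (a - 1) ^ 2 + a ^ 2) ≤ k * (2 * (a - 1) ^ 2 + a ^ 2) :=
      mul_le_mul_of_nonneg_right hk1 (by positivity)
    have t2 : 0 ≤ a * (4 * a - 1 - 2 * a ^ 2) := mul_nonneg (by linarith) (by linarith)
    have t3 : q * (a * (4 * a - 1 - 2 * a ^ 2)) ≤ 0.6195 * (a * (4 * a - 1 - 2 * a ^ 2)) :=
      mul_le_mul_of_nonneg_right hq2 t2
    rw [hA0]
    nlinarith
  have b1 : 0.49 ≤ u := by
    have t1 : k * (2 * (a - 1) ^ 2) ≤ 0.2091 * (2 * (a - 1) ^ 2) :=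
      mul_le_mul_of_nonneg_right hk2 (by positivity)
    rw [hu]
    nlinarith
  have b2 : 0.33 ≤ v := by
    rw [hv]
    nlinarith
  have b3 : v ≤ 0.332 := by
    rw [hv]
    nlinarith
  have e7 : 1.037 ≤ a * q := by nlinarith
  have e8 : a * q ≤ 1.038 := by nlinarith
  have b4 : A1 ≤ -0.05 := by
    have t1 : 0.6192 * 0.49 ≤ q * u := mul_le_mul hq1 b1 (by norm_num) (by linarith)
    have t2 : 1.037 * (0.279 - 0.116 * a) ≤ (a * q) * (0.279 - 0.116 * a) :=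
      mul_le_mul_of_nonneg_right e7 (by linarith)
    rw [hA1]
    nlinarith
  have b5 : A2 ≤ 0.12 := by
    have t1 : 0.6192 * 0.33 ≤ q * v := mul_le_mul hq1 b2 (by norm_num) (by linarith)
    have t2 : (a * q) * (4 * a - 1) ≤ 1.038 * 5.7008 :=
      mul_le_mul e8 (by linarith) (by linarith) (by norm_num)
    rw [hA2]
    nlinarith
  have b6 : 0 ≤ (1 - q * r) * m * (a ^ 3 - 4 * a + 2) := by
    have : q * r ≤ 1 := by nlinarith
    exact mul_nonneg (mul_nonneg (by linarith) hm.le) h3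
  have b7 : 0 ≤ 0.1 * (q * e) * r ^ 3 := by
    have : 0 ≤ q * e := mul_nonneg (by linarith) (by linarith)
    positivity
  have b8 : A1 * r ≤ -0.05 * r := mul_le_mul_of_nonneg_right b4 hr.le
  have b9 : A2 * r ^ 2 ≤ 0.12 * r ^ 2 := mul_le_mul_of_nonneg_right b5 (by positivity)
  have b10 : r ^ 2 ≤ 1 / 7 * r := by nlinarith
  rw [key]
  linarith

/-- The second number. -/
theorem F2_le (h1 : 1.67513 ≤ a) (h2 : a ≤ 1.6752)
    (hk1 : 0.20907 ≤ k) (hk2 : k ≤ 0.2091) (hq1 : 0.6192 ≤ q) (hq2 : q ≤ 0.6195)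
    (hmr : m * r = 1) (hr : 0 < r) (hr7 : r ≤ 1 / 7) (hm : 7 ≤ m) :
    F2 a k q (1.01 * (a + m + k)) m r ≤ 0 := by
  obtain ⟨e1, e2, e3, e4⟩ := pw h1 h2
  obtain ⟨B1, hB1⟩ : ∃ x, x = (a - 1) * (1 - 2 * k + k * r) + 7 * a ^ 2 + 3 * a - 4 +
      (3 * a - 1) * (0.01 * a + 1.01 * k) - 2 * (a ^ 2 + 3 * a - 2) -
      (a ^ 2 - 0.03 * a - 0.99) * m := ⟨_, rfl⟩
  obtain ⟨B2, hB2⟩ : ∃ x, x = k - 2 * (k * r) + q * (2 * a - 2.02) -
      (q * r) * (4.02 * a - 2 + 2.02 * k) := ⟨_, rfl⟩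
  have key : F2 a k q (1.01 * (a + m + k)) m r = (1 - q * r) * B1 - a * B2 := by
    have hr0 : r ≠ 0 := hr.ne'
    have hm' : m = r⁻¹ := eq_inv_of_mul_eq_one_left hmr
    rw [hB1, hB2, hm']
    unfold F2
    field_simp
    ring
  have hkr0 : 0 ≤ k * r := mul_nonneg (by linarith) hr.le
  have hkr : k * r ≤ 0.03 := by nlinarith
  have hqr0 : 0 ≤ q * r := mul_nonneg (by linarith) hr.le
  have hqr : q * r ≤ 0.0885 := by nlinarith
  have b1 : B1 ≤ 0 := by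
    have t1 : (a - 1) * (1 - 2 * k + k * r) ≤ 0.6752 * 0.612 :=
      mul_le_mul (by linarith) (by linarith) (by linarith) (by norm_num)
    have t2 : (3 * a - 1) * (0.01 * a + 1.01 * k) ≤ 4.0256 * 0.228 :=
      mul_le_mul (by linarith) (by linarith) (by linarith) (by norm_num)
    have t3 : 1.76 * 7 ≤ (a ^ 2 - 0.03 * a - 0.99) * m :=
      mul_le_mul (by linarith) hm (by norm_num) (by linarith)
    rw [hB1]
    linarith
  have b2 : 0 ≤ B2 := by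
    have t1 : 0.6192 * 1.33 ≤ q * (2 * a - 2.02) :=
      mul_le_mul hq1 (by linarith) (by norm_num) (by linarith)
    have t2 : (q * r) * (4.02 * a - 2 + 2.02 * k) ≤ 0.0885 * 5.16 :=
      mul_le_mul hqr (by linarith) (by linarith) (by norm_num)
    rw [hB2]
    linarith
  have b3 : (1 - q * r) * B1 ≤ 0 := mul_nonpos_of_nonneg_of_nonpos (by linarith) b1
  have b4 : 0 ≤ a * B2 := mul_nonneg (by linarith) b2
  rw [key]
  linarith

end Pool.LQ.N1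

namespace Pool.LQ

open Pool.KTH
open Pool.Agent.H24.KTH (kp)

/-- NUM3: the numbers. -/
theorem num3 : NUM3Stmt := by
  intro m a Λ hm ha1 ha2 ha3 hΛ
  have hm7 : (7 : ℝ) ≤ (m : ℝ) := by exact_mod_cast hm
  have hm0 : (0 : ℝ) < (m : ℝ) := by linarith
  obtain ⟨r, hr⟩ : ∃ r : ℝ, r = 1 / (m : ℝ) := ⟨_, rfl⟩
  have hr0 : 0 < r := by rw [hr]; positivity
  have hmr : (m : ℝ) * r = 1 := by rw [hr]; field_simp
  have hr7 : r ≤ 1 / 7 := by
    rw [hr]; exact one_div_le_one_div_of_le (by norm_num) hm7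
  obtain ⟨e1, e2, e3, e4⟩ := N1.pw ha1 ha2
  have hD : a ^ 2 + 3 * a - 2 ≠ 0 := by
    have : 0 < a ^ 2 + 3 * a - 2 := by linarith
    exact this.ne'
  obtain ⟨k, hk⟩ : ∃ k : ℝ, k = kp a := ⟨_, rfl⟩
  have hkD : k * (a ^ 2 + 3 * a - 2) = 3 * a - a ^ 2 - 1 := by
    rw [hk]; unfold kp; exact div_mul_cancel₀ _ hD
  obtain ⟨hk1, hk2⟩ := N1.kb ha1 ha2 hkD
  have ha10 : a - 1 ≠ 0 := by
    have : 0 < a - 1 := by linarith
    exact this.ne'
  obtain ⟨q, hq⟩ : ∃ q : ℝ, q = 2 * k / (a - 1) := ⟨_, rfl⟩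
  have hqa : q * (a - 1) = 2 * k := by rw [hq]; field_simp
  obtain ⟨hq1, hq2⟩ := N1.qb ha1 ha2 hk1 hk2 hqa
  have hqr0 : 0 ≤ q * r := mul_nonneg (by linarith) hr0.le
  have hqr : q * r ≤ 0.0885 := by nlinarith
  have hs : ss a (m : ℝ) = q * r := by
    unfold ss
    rw [← hk, hq, hr]
    field_simp
  have hkr : kp a / (m : ℝ) = k * r := by rw [← hk, hr]; ring
  obtain ⟨c, hc⟩ : ∃ c : ℝ, c = cc (m : ℝ) := ⟨_, rfl⟩
  have hc' : c = 0.279 + 0.05 * r := by rw [hc, hr]; unfold cc; ring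
  have hf1 : N1.F1 a k q c m r ≤ 0 := by
    rw [hc']
    exact N1.F1_le ha1 ha2 ha3 hk1 hk2 hq1 hq2 hmr hr0 hr7 hm0
  have hf2 : N1.F2 a k q Λ m r ≤ 0 := by
    rw [hΛ, ← hk]
    exact N1.F2_le ha1 ha2 hk1 hk2 hq1 hq2 hmr hr0 hr7 hm7
  obtain ⟨Cy, hCy⟩ : ∃ x, x = a * ((1 - q * r) * ((3 * a - a ^ 2 - 1) + (a - 1) * k * r) +
    a * (q * r)) := ⟨_, rfl⟩
  obtain ⟨Ct, hCt⟩ : ∃ x, x = a * ((1 - q * r) * ((a - 1) * k * r) + a * (k * r)) := ⟨_, rfl⟩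
  obtain ⟨Cs, hCs⟩ : ∃ x, x = (1 - q * r) * ((3 * a ^ 2 + 2 * a - 2) + 2 * (a - 1) * k * r) +
    a * (q * r) * (4 * a - 1) := ⟨_, rfl⟩
  have hak : 0 ≤ (a - 1) * k * r :=
    mul_nonneg (mul_nonneg (by linarith) (by linarith)) hr0.le
  have hkr0 : 0 ≤ k * r := mul_nonneg (by linarith) hr0.le
  have hCy0 : 0 ≤ Cy := by
    rw [hCy]
    refine mul_nonneg (by linarith) (add_nonneg (mul_nonneg (by linarith) ?_) ?_)
    · linarith
    · exact mul_nonneg (by linarith) hqr0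
  have hCt0 : 0 ≤ Ct := by
    rw [hCt]
    refine mul_nonneg (by linarith) (add_nonneg (mul_nonneg (by linarith) hak) ?_)
    exact mul_nonneg (by linarith) hkr0
  have hCs0 : 0 < Cs := by
    rw [hCs]
    have t1 : 0 < (1 - q * r) * ((3 * a ^ 2 + 2 * a - 2) + 2 * (a - 1) * k * r) := by
      apply mul_pos (by linarith)
      have : 0 ≤ 2 * (a - 1) * k * r := by
        have : 2 * (a - 1) * k * r = 2 * ((a - 1) * k * r) := by ring
        rw [this]; linarith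
      linarith
    have t2 : 0 ≤ a * (q * r) * (4 * a - 1) :=
      mul_nonneg (mul_nonneg (by linarith) hqr0) (by linarith)
    linarith
  have hC0 : 0 ≤ Cy + Ct + a * (1 - q * r) := by
    have : 0 ≤ a * (1 - q * r) := mul_nonneg (by linarith) (by linarith)
    linarith
  refine ⟨(Cy + Ct + a * (1 - q * r)) / Cs, div_nonneg hC0 hCs0.le, ?_⟩
  intro L l sb y K τ E hl hK hE hL _ hy hτ hsb hT
  have hLr : L / (m : ℝ) = L * r := by rw [hr]; ring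
  have hcm : cc (m : ℝ) / (m : ℝ) = c * r := by rw [← hc, hr]; ring
  rw [hcm, ← hc]
  rw [hLr] at hy
  have hCE : 0 ≤ (Cy + Ct + a * (1 - q * r)) / Cs * E :=
    mul_nonneg (div_nonneg hC0 hCs0.le) hE
  have hc0 : 0 ≤ c := by rw [hc']; positivity
  by_cases hcase : L * r ≤ K
  · -- the trivial case
    have t1 : (1 + c * r) * L = (m + c) * (L * r) := by
      have : (1 + c * r) * L = (m * r + c * r) * L := by rw [hmr]
      rw [this]; ring
    have t2 : (m + c) * (L * r) ≤ (m + c) * K :=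
      mul_le_mul_of_nonneg_left hcase (by linarith)
    have t3 : a * (l - K - sb) ≤ 0 :=
      mul_nonpos_of_nonneg_of_nonpos (by linarith) (by linarith)
    rw [t1]
    have t4 : a * (sb - l) + (a + m + c) * K = (m + c) * K - a * (l - K - sb) := by ring
    rw [t4]
    linarith
  · rw [not_le] at hcase
    unfold Two cLo cIo at hT
    rw [hs, hkr, ← hk] at hT
    have hs1 : 0 < 1 - q * r := by linarith
    obtain ⟨N, hN⟩ : ∃ x, x = k * l - k * r * (τ + 2 * K) - q * r * XX a Λ L l sb y K := ⟨_, rfl⟩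
    rw [← hN] at hT
    obtain ⟨w, hw⟩ : ∃ w, w = N / (1 - q * r) := ⟨_, rfl⟩
    have hN1 : (1 - q * r) * w = N := by rw [hw]; field_simp
    rw [← hw] at hT
    have h0 := mul_le_mul_of_nonneg_left hT (mul_nonneg (by linarith : (0 : ℝ) ≤ a) hs1.le)
    have hid := N1.ident a k q c Λ m r L l sb y K τ hmr
    rw [← hCy, ← hCt, ← hCs] at hid
    have hXX : XX a Λ L l sb y K = (4 * a - 1) * sb - 2 * a * (L + 2 * l) + y +
      (8 * a - 2 + 2 * (Λ - a)) * K := rfl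
    rw [← hXX, ← hN] at hid
    have hDD : DD a = a ^ 2 + 3 * a - 2 := rfl
    have hPP : PP a = 3 * a ^ 2 + 2 * a - 2 := rfl
    have hkh : kh a = 3 * a - a ^ 2 - 1 := rfl
    rw [hDD, hPP, hkh] at h0
    obtain ⟨X, hX⟩ : ∃ x, x = a * (sb - l) + (a + m + c) * K - (1 + c * r) * L := ⟨_, rfl⟩
    rw [← hX] at hid
    -- the combination
    have h1 : 0 ≤ a * ((1 - q * r) * ((3 * a ^ 2 + 2 * a - 2) * sb + (a - 1) * l +
        (3 * a - a ^ 2 - 1) * y -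
        (a - 1) * (k * l - k * r * (τ + 4 * K + (2 * sb - L - 3 * l + y))) +
        (7 * a ^ 2 + 3 * a - 4 + (3 * a - 1) * (Λ - a)) * K -
        (a ^ 2 + 3 * a - 2) * (L + 2 * l)) - a * N) + a * (1 - q * r) * E := by
      rw [← sub_nonneg] at h0
      refine h0.trans (le_of_eq ?_)
      rw [← hN1]
      ring
    rw [hid] at h1
    have t1 : Cy * (y - (l - L * r)) ≤ Cy * E := mul_le_mul_of_nonneg_left (by linarith) hCy0
    have t2 : Ct * (τ - (m * l - L)) ≤ Ct * E := mul_le_mul_of_nonneg_left (by linarith) hCt0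
    have t3 : (L * r - K) * N1.F1 a k q c m r ≤ 0 :=
      mul_nonpos_of_nonneg_of_nonpos (by linarith) hf1
    have t4 : K * (a * N1.F2 a k q Λ m r) ≤ 0 :=
      mul_nonpos_of_nonneg_of_nonpos hK (mul_nonpos_of_nonneg_of_nonpos (by linarith) hf2)
    have t5 : 0 ≤ Cs * X + (Cy + Ct + a * (1 - q * r)) * E := by
      have : (Cy + Ct + a * (1 - q * r)) * E = Cy * E + Ct * E + a * (1 - q * r) * E := by ring
      rw [this]
      linarith
    have t6 : 0 ≤ X + (Cy + Ct + a * (1 - q * r)) / Cs * E := by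
      have : X + (Cy + Ct + a * (1 - q * r)) / Cs * E =
          (Cs * X + (Cy + Ct + a * (1 - q * r)) * E) / Cs := by
        field_simp
      rw [this]
      exact div_nonneg t5 hCs0.le
    linarith

end Pool.LQ
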